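import Pool.Agent.Helper19.Moid.Geom

open Pool.Agent.Helper19.Moid

namespace Pool.Agent.Results.MP_4e5648_mp.CircleEllipseTen

/-- For every pair of confocal ellipses in three-dimensional Euclidean space of which exactly one
is a circle, the squared distance between a point of one and a point of the other has at most
ten stationary points. -/
theorem result : ∀ E₁ E₂ : Ellipse, Confocal E₁ E₂ →
    ((E₁.eccentricity = 0 ∧ 0 < E₂.eccentricity) ∨
      (0 < E₁.eccentricity ∧ E₂.eccentricity = 0)) →
    (stationaryPoints E₁ E₂).encard ≤ 10 :=
  fun _ _ hconf h => stationaryPoints_le_ten hconf h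

end Pool.Agent.Results.MP_4e5648_mp.CircleEllipseTen
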